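import Pool.Agent.Helper45.CF.GoalsB
import Pool.Agent.Helper4.CR.TADD
import Pool.Agent.Helper91.CR.TZ
import Pool.Agent.Helper36.CR.TNEG

/-!
Project CF (MP_d97caa_an), packet CF-SRJ: the rotated connecting maps induce surjections.
-/

open scoped ComplexOrder ZeroAtInfty Topology ComplexConjugate
open TopologicalSpace Filter

namespace Pool.Agent.Helper92.CF

open Pool.Agent.Helper34.CAR Pool.Agent.Helper39.CR Pool.Agent.Helper39.Uct
  Pool.Agent.Helper39.CarDefs Pool.Agent.Helper45.CF Pool.Agent.Helper36.CR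

noncomputable section

/-! ## The Bott projection is a projection -/

theorem bp_mul (y : Sphere2) (i j : Fin 2) :
    bp y i 0 * bp y 0 j + bp y i 1 * bp y 1 j = bp y i j := by
  obtain ⟨⟨t, w⟩, h⟩ := y
  have h1 : t ^ 2 + ‖w‖ ^ 2 = 1 := h
  have h2 : (w * conj w : ℂ) = 1 - (t : ℂ) ^ 2 := by
    rw [Complex.mul_conj, Complex.normSq_eq_norm_sq]
    have : ‖w‖ ^ 2 = 1 - t ^ 2 := by linarith
    rw [this]
    push_cast
    ring
  have h3 : (conj w * w : ℂ) = 1 - (t : ℂ) ^ 2 := by rw [mul_comm, h2]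
  fin_cases i <;> fin_cases j <;> simp [bp] <;> ring_nf
  · linear_combination (1 / 4 : ℂ) * h3
  · linear_combination (1 / 4 : ℂ) * h3

theorem star_bp (y : Sphere2) (i j : Fin 2) : star (bp y i j) = bp y j i := by
  fin_cases i <;> fin_cases j <;> simp [bp]

/-! ## Homomorphisms into function algebras -/

/-- A continuous family of *-homomorphisms as a *-homomorphism into a function algebra. -/
def fam {Z A M : Type} [TopologicalSpace Z] [CompactSpace Z] [NonUnitalCStarAlgebra A]
    [NonUnitalCStarAlgebra M] (H : Z → (A →⋆ₙₐ[ℂ] M)) (hH : ∀ a, Continuous fun z => H z a) :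
    A →⋆ₙₐ[ℂ] C(Z, M) where
  toFun a := ⟨fun z => H z a, hH a⟩
  map_smul' c a := by
    ext z
    exact map_smul (H z) c a
  map_zero' := by
    ext z
    exact map_zero (H z)
  map_add' a b := by
    ext z
    exact map_add (H z) a b
  map_mul' a b := by
    ext z
    exact map_mul (H z) a b
  map_star' a := by
    ext z
    exact map_star (H z) a

theorem fam_apply {Z A M : Type} [TopologicalSpace Z] [CompactSpace Z] [NonUnitalCStarAlgebra A]
    [NonUnitalCStarAlgebra M] (H : Z → (A →⋆ₙₐ[ℂ] M)) (hH : ∀ a, Continuous fun z => H z a)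
    (a : A) (z : Z) : fam H hH a z = H z a := rfl

theorem continuous_mt {Z I B : Type} [TopologicalSpace Z] [Fintype I] [DecidableEq I]
    [CStarAlgebra B] (f : Z → Mt I B) (h : ∀ i j, Continuous fun z => f z i j) :
    Continuous f := by
  rw [continuous_iff_continuousAt]
  intro z
  rw [ContinuousAt, tendsto_iff_norm_sub_tendsto_zero]
  refine squeeze_zero (fun b => norm_nonneg _) (fun b => Mt.norm_le_sum (f b - f z)) ?_
  have h0 : (0 : ℝ) = ∑ i : I, ∑ j : I, ‖f z i j - f z i j‖ := by simp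
  rw [h0]
  refine tendsto_finsetSum _ fun i _ => tendsto_finsetSum _ fun j _ => ?_
  have hc : Continuous fun b : Z => ‖f b i j - f z i j‖ := by
    have := h i j
    fun_prop
  exact hc.tendsto z

/-- `b ↦ b ⊗ p_y`. -/
def Pf (B : Type) [CStarAlgebra B] (y : Sphere2) : B →⋆ₙₐ[ℂ] Mt (Fin 2) B where
  toFun b := Mt.of fun i j => bp y i j • b
  map_smul' c b := by
    ext i j
    rw [Mt.smul_apply, Mt.of_apply, Mt.of_apply, MonoidHom.id_apply, smul_comm]
  map_zero' := by
    ext i j
    rw [Mt.of_apply, smul_zero, Mt.zero_apply]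
  map_add' a b := by
    ext i j
    rw [Mt.add_apply, Mt.of_apply, Mt.of_apply, Mt.of_apply, smul_add]
  map_mul' a b := by
    ext i j
    rw [Mt.mul_apply, Fin.sum_univ_two]
    simp only [Mt.of_apply, smul_mul_smul_comm]
    rw [← add_smul, bp_mul]
  map_star' a := by
    ext i j
    rw [Mt.star_apply, Mt.of_apply, Mt.of_apply, star_smul, star_bp]

/-- The homomorphism `P` of `S_BOTT`. -/
def PP (B : Type) [CStarAlgebra B] : B →⋆ₙₐ[ℂ] C(Sphere2, Mt (Fin 2) B) :=
  fam (Pf B) fun b => continuous_mt _ fun i j => by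
    have h : Continuous fun y => bp y i j := continuous_bp i j
    exact h.smul continuous_const

/-- Constant corners. -/
def DD {S B : Type} [Fintype S] [DecidableEq S] [CStarAlgebra B] (p : S) :
    B →⋆ₙₐ[ℂ] C(Sphere2, Mt S B) :=
  fam (fun _ => cornH p) fun _ => continuous_const

theorem DD_apply {S B : Type} [Fintype S] [DecidableEq S] [CStarAlgebra B] (p : S) (b : B)
    (y : Sphere2) : DD p b y = Mt.single p p b := rfl

/-- The block embedding `M_2(B) → M_S(B)`. -/
def blk {S B : Type} [Fintype S] [DecidableEq S] [CStarAlgebra B] (p q : S) (hpq : p ≠ q) :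
    Mt (Fin 2) B →⋆ₙₐ[ℂ] Mt S B where
  toFun a := mu p p (a 0 0) + mu p q (a 0 1) + mu q p (a 1 0) + mu q q (a 1 1)
  map_smul' c a := by
    simp only [Mt.smul_apply, map_smul, MonoidHom.id_apply, smul_add]
  map_zero' := by
    simp only [Mt.zero_apply, map_zero, add_zero]
  map_add' a b := by
    simp only [Mt.add_apply, map_add]
    abel
  map_mul' a b := by
    have hqp : q ≠ p := hpq.symm
    simp only [add_mul, mul_add, munits.mul, munits.mul0 _ _ _ _ _ _ hpq,
      munits.mul0 _ _ _ _ _ _ hqp, add_zero, zero_add, Mt.mul_apply, Fin.sum_univ_two, map_add]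
    abel
  map_star' a := by
    simp only [star_add, munits.star, Mt.star_apply]
    abel

theorem blk_apply {S B : Type} [Fintype S] [DecidableEq S] [CStarAlgebra B] (p q : S)
    (hpq : p ≠ q) (a : Mt (Fin 2) B) : blk p q hpq a =
      Mt.single p p (a 0 0) + Mt.single p q (a 0 1) + Mt.single q p (a 1 0) +
        Mt.single q q (a 1 1) := rfl

theorem t (hJSU : S_JSU) (hCCO : S_CCO) (hSCA : S_SCA) (hDEC : S_DEC) (hBOTT : S_BOTT) :
    S_SRJ := by
  intro T i B _ _ θ ω s c2 hom hz hθ k κh hκ κn hκn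
  have hTADD : S_TADD := Pool.Agent.Helper4.CR.tadd Pool.Agent.Helper91.CR.tz
  -- the corner
  let c : B →⋆ₙₐ[ℂ] s.A k := cornH (s.top k)
  have hc : Function.Bijective (T.map i c) :=
    T.stable i B (s.A k) (s.S k) mu munits (s.top k) c fun _ => rfl
  -- it is enough to consider the composition with the corner
  suffices hs : Function.Surjective (T.map i (κn.comp c)) by
    intro x
    obtain ⟨y, hy⟩ := hs (T.map i c x)
    refine ⟨y, hc.1 ?_⟩
    rw [← hy, T.map_comp]
  obtain ⟨p0, p1, p2, h, hp, hsum, horth, h0, h1, h2⟩ := hDEC B θ ω s c2 hom k κh hκ (s.top k)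
  have hadd : ∀ y, T.map i (κn.comp c) y = ∑ l, T.map i (h l) y := by
    refine hTADD T i B C(Sphere2, s.A (k + 1)) (Fin 3) h (κn.comp c) horth ?_
    intro b
    rw [← hsum b]
    exact hκn _
  have e2 : ∀ y, T.map i (h 2) y = 0 :=
    hSCA T i B (s.S (k + 1)) ω hz (h 2) h2
  -- the first summand
  let g : B →⋆ₙₐ[ℂ] B := (θ : B →⋆ₙₐ[ℂ] B)
  have e0 : ∀ y, T.map i (h 0) y = - T.map i (DD p1) y := by
    intro y
    have hc0 : h 0 = (DD p0).comp g := by
      refine DFunLike.ext _ _ fun b => ContinuousMap.ext fun z => ?_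
      exact h0 b z
    rw [hc0, T.map_comp, hθ g (fun _ => rfl),
      hCCO T i B (s.S (k + 1)) p0 p1 (DD p0) (DD p1) (fun _ _ => rfl) (fun _ _ => rfl)]
  -- the second summand
  let J : C(Sphere2, Mt (Fin 2) B) →⋆ₙₐ[ℂ] C(Sphere2, s.A (k + 1)) :=
    mapC Sphere2 (blk p1 p2 hp)
  have hJ : Function.Surjective (T.map i J) :=
    hJSU T i B (s.S (k + 1)) p1 p2 hp J fun f y => rfl
  have e1 : ∀ y, T.map i (h 1) y = T.map i (PP B) (T.map i J y) := by
    intro y
    have hc1 : h 1 = J.comp (PP B) := by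
      refine DFunLike.ext _ _ fun b => ContinuousMap.ext fun z => ?_
      exact h1 b z
    rw [hc1, T.map_comp]
  have e3 : ∀ y, T.map i (DD p1) y = T.map i (DD (0 : Fin 2)) (T.map i J y) := by
    intro y
    have hc1 : DD p1 = J.comp (DD (0 : Fin 2) : B →⋆ₙₐ[ℂ] _) := by
      refine DFunLike.ext _ _ fun b => ContinuousMap.ext fun z => ?_
      change Mt.single p1 p1 b = Mt.single p1 p1 ((Mt.single 0 0 b : Mt (Fin 2) B) 0 0) +
        Mt.single p1 p2 ((Mt.single 0 0 b : Mt (Fin 2) B) 0 1) +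
        Mt.single p2 p1 ((Mt.single 0 0 b : Mt (Fin 2) B) 1 0) +
        Mt.single p2 p2 ((Mt.single 0 0 b : Mt (Fin 2) B) 1 1)
      have z0 : ∀ p q : s.S (k + 1), (Mt.single p q (0 : B) : Mt (s.S (k + 1)) B) = 0 :=
        fun p q => (mu p q : B →ₗ[ℂ] Mt (s.S (k + 1)) B).map_zero
      simp [Mt.single_apply, z0]
    rw [hc1, T.map_comp]
  intro x
  obtain ⟨y₂, hy₂⟩ := hBOTT T i B (PP B) (DD (0 : Fin 2)) (fun _ _ _ _ => rfl)
    (fun _ _ => rfl) x
  obtain ⟨y, rfl⟩ := hJ y₂
  refine ⟨y, ?_⟩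
  rw [hadd, Fin.sum_univ_three, e2, e0, e1, e3, hy₂]
  abel

end

end Pool.Agent.Helper92.CF
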